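import Mathlib
import Pool.Agent.W422.PI.Brauer

/-!
# The unramified period-index conjecture for products with abelian varieties

Let `Y` be a variety over an algebraically closed field `k`, `A` an abelian variety of dimension
`g` and `X = Y × A`, with function fields `k(Y) ⊂ K = k(X)`. If the unramified period-index
conjecture holds for `Y`, then it holds for `X`, for all classes of period `n` all of whose prime
factors are larger than `g` (and prime to the characteristic and to the degree of some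
polarization). In particular it holds for the product of any curve and any abelian variety.

In the theorem `H ≤ Kˣ` is the group of the functions on `Y` whose divisor is divisible by `n`
(Kummer classes of `H¹(Y, μ_n)`), `V ≤ Br(K)` is the image of `Br(Y)[n]`, and `e_i, f_i ∈ Kˣ`
represent a basis of `H¹(A, μ_n)` which is symplectic for the polarization. The unramified classes
are the products of classes of `V` and symbols with entries in `H`, `e_i`, `f_i` (Künneth), and the
relation `∏_i {e_i, f_i} = 1` expresses that the class of the polarization is algebraic, so that it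
vanishes in the Brauer group. The relation in the theorem is more general: it is only required
modulo `{e_i, H}`, `{f_i, H}` and `V`.
-/

set_option autoImplicit false

namespace Pool.Agent.Results.MP_43d240_ag.ProductsWithAbelian

open Pool.Agent.Helper18.Br Pool.Agent.H552R3.SymBr Pool.Agent.H552R3.SymPred
  Pool.Agent.H552R3.Tsen

universe u

/-- `∏_i {e_i, f_i}` is trivial modulo `{e_i, H}`, `{f_i, H}` and `V`:
`∏_i {e_i, f_i} = (∏_i {e_i, a_i} {f_i, b_i}) v` with `a_i, b_i ∈ H` and `v ∈ V`. -/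
def PolRel {K : Type u} [Field K] (n : ℕ) (ζ : K) (H : Subgroup Kˣ)
    (V : Subgroup (BrauerGroup.{u, u} K)) {g : ℕ} (e f : Fin g → Kˣ) : Prop :=
  ∃ (a b : Fin g → Kˣ) (γ δ ε : Fin g → BrauerGroup.{u, u} K), (∀ i, a i ∈ H) ∧ (∀ i, b i ∈ H) ∧
    (∀ i, IsSym n ζ (e i) (f i) (γ i)) ∧ (∀ i, IsSym n ζ (e i) (a i) (δ i)) ∧
    (∀ i, IsSym n ζ (f i) (b i) (ε i)) ∧ ∃ v ∈ V, ∏ i, γ i = (∏ i, δ i * ε i) * v

/-- **The unramified period-index conjecture for products with abelian varieties.** Let `K` be an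
extension of an algebraically closed field `k`, `n ≥ 1` an integer all of whose prime factors are
larger than `g`, `ζ ∈ K` a primitive `n`-th root of unity and `e_i, f_i ∈ Kˣ` (`i < g`).
(1) Let `H ≤ Kˣ` and `V ≤ Br(K)` be subgroups such that all symbols of degree `n` with entries in
`H` are in `V` and all classes of `V` have index dividing `N`, and let `PolRel` hold. Then every
class in the group generated by `V` and all symbols with entries in the group generated by `H`,
the `e_i` and the `f_i` has index dividing `n ^ g * N` (for `N = n ^ (dim Y - 1)` this is the bound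
of the conjecture for `Y × A`).
(2) If `L` is an intermediate field of transcendence degree at most one over `k`, `H = Lˣ`, and
`PolRel` holds with `V = 1`, then every class in the group generated by all symbols with entries
in the group generated by `Lˣ`, the `e_i` and the `f_i` has index dividing `n ^ g`. -/
theorem result {k K : Type u} [Field k] [IsAlgClosed k] [Field K] [Algebra k K] (n : ℕ)
    (hn : 0 < n) (ζ : K) (hζ : IsPrimitiveRoot ζ n) (g : ℕ)
    (hp : ∀ p : ℕ, p.Prime → p ∣ n → g < p) (e f : Fin g → Kˣ) :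
    (∀ (H : Subgroup Kˣ) (V : Subgroup (BrauerGroup.{u, u} K)),
      (∀ a ∈ H, ∀ b ∈ H, ∀ γ, IsSym n ζ a b γ → γ ∈ V) → ∀ N : ℕ, 0 < N →
      (∀ β ∈ V, IndDvd β N) → PolRel n ζ H V e f →
      ∀ α ∈ V ⊔ Subgroup.closure {γ | ∃ x ∈ H ⊔ Subgroup.closure (Set.range e ∪ Set.range f),
        ∃ y ∈ H ⊔ Subgroup.closure (Set.range e ∪ Set.range f), IsSym n ζ x y γ},
      IndDvd α (n ^ g * N)) ∧
    (∀ (L : IntermediateField k K) (H : Subgroup Kˣ), Algebra.trdeg k L ≤ 1 →
      (∀ x : Kˣ, x ∈ H ↔ (x : K) ∈ L) → PolRel n ζ H ⊥ e f →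
      ∀ α ∈ Subgroup.closure {γ | ∃ x ∈ H ⊔ Subgroup.closure (Set.range e ∪ Set.range f),
        ∃ y ∈ H ⊔ Subgroup.closure (Set.range e ∪ Set.range f), IsSym n ζ x y γ},
      IndDvd α (n ^ g)) := by
  have h1 : ∃ c : K, c ^ n = -1 := by
    obtain ⟨c, hc⟩ := IsAlgClosed.exists_pow_nat_eq (-1 : k) hn
    exact ⟨algebraMap k K c, by rw [← map_pow, hc, map_neg, map_one]⟩
  have hS : ∀ G : Subgroup Kˣ, {γ | ∃ x ∈ G, ∃ y ∈ G, IsSym n ζ x y γ} = symSet hn hζ G := by
    intro G
    ext γ
    constructor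
    · rintro ⟨x, hx, y, hy, h⟩
      exact ⟨x, hx, y, hy, (isSym_iff hn hζ x y γ).1 h⟩
    · rintro ⟨x, hx, y, hy, h⟩
      exact ⟨x, hx, y, hy, (isSym_iff hn hζ x y γ).2 h⟩
  have main : ∀ (H : Subgroup Kˣ) (V : Subgroup (BrauerGroup.{u, u} K)),
      (∀ a ∈ H, ∀ b ∈ H, ∀ γ, IsSym n ζ a b γ → γ ∈ V) → ∀ N : ℕ, 0 < N →
      (∀ β ∈ V, IndDvd β N) → PolRel n ζ H V e f →
      ∀ α ∈ V ⊔ Subgroup.closure {γ | ∃ x ∈ H ⊔ Subgroup.closure (Set.range e ∪ Set.range f),
        ∃ y ∈ H ⊔ Subgroup.closure (Set.range e ∪ Set.range f), IsSym n ζ x y γ},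
      IndDvd α (n ^ g * N) := by
    intro H V hHV N hN hV hrel α hα
    rw [hS] at hα
    obtain ⟨a, b, γ, δ, ε, ha, hb, hγ, hδ, hε, v, hv, h⟩ := hrel
    refine Pool.Agent.W422.PI.pencilBr hn hζ h1 g hp H V
      (fun a ha b hb => hHV a ha b hb _ ((isSym_iff hn hζ a b _).2 rfl)) N hN hV e f
      ⟨a, b, ha, hb, v, hv, ?_⟩ α hα
    have hγ' : ∀ i, γ i = symCl hn hζ (e i) (f i) := fun i => (isSym_iff hn hζ _ _ _).1 (hγ i)
    have hδ' : ∀ i, δ i = symCl hn hζ (e i) (a i) := fun i => (isSym_iff hn hζ _ _ _).1 (hδ i)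
    have hε' : ∀ i, ε i = symCl hn hζ (f i) (b i) := fun i => (isSym_iff hn hζ _ _ _).1 (hε i)
    simp only [hγ', hδ', hε'] at h
    exact h
  refine ⟨main, fun L H htr hH hrel α hα => ?_⟩
  have h2 := main H ⊥ (fun x hx y hy γ hγ => ?_) 1 one_pos (fun β hβ => ?_) hrel α
    (by rw [bot_sup_eq]; exact hα)
  · rwa [mul_one] at h2
  · -- symbols of `L` are trivial
    obtain ⟨z, rfl⟩ : ∃ z : k, algebraMap k K z = ζ :=
      mem_range_of_alg ζ ⟨Polynomial.X ^ n - Polynomial.C 1, Polynomial.X_pow_sub_C_ne_zero hn 1, by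
        simp [hζ.pow_eq_one]⟩
    have hz : IsPrimitiveRoot z n := hζ.of_map_of_injective (algebraMap k K).injective
    rw [Subgroup.mem_bot, (isSym_iff hn hζ x y γ).1 hγ]
    refine tsen hn hz x y fun h => ?_
    have h2 : AlgebraicIndependent k
        ![(⟨x, (hH x).1 hx⟩ : L), (⟨y, (hH y).1 hy⟩ : L)] := by
      apply AlgebraicIndependent.of_comp L.val
      convert h using 1
      funext i
      fin_cases i <;> rfl
    have h3 := h2.lift_cardinalMk_le_trdeg
    have h4 := h3.trans (Cardinal.lift_le.2 htr)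
    simp at h4
  · rw [Subgroup.mem_bot.1 hβ]
    exact Pool.Agent.W422.PI.hasRep_one.indDvd

end Pool.Agent.Results.MP_43d240_ag.ProductsWithAbelian
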