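import Mathlib
import Pool.Agent.W422.PI.Brauer

/-!
# The unramified period-index conjecture for abelian varieties with real multiplication

Let `A` be an abelian variety of dimension `g` over an algebraically closed field `k` with real
multiplication by the ring of integers `O` of a totally real field of degree `g` (or of a product
of such fields of total degree `g`: all products of elliptic curves, all abelian varieties with
complex multiplication by such rings, ...). Let `p` be a prime, not the characteristic, which is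
unramified in `O`. Then every `α ∈ Br(A)[p]` has index dividing `p ^ (g - 1)`.

In the theorem `R = O / p` (a reduced `𝔽_p`-algebra of dimension `g`), `r_i` is a basis of `R`, `l`
the trace form (or any functional with nondegenerate form `l(xy)`), and `e_i, f_j` represent the
basis of `H¹(A, μ_p)`, a free `R`-module of rank two, which consists of the coordinates with respect
to `r_i`. The relations `∏_{i,j} {e_i, f_j} ^ l(a r_i r_j) = 1` (`a ∈ R`) express that the
`O`-symmetric classes of `H²(A, μ_p)` are algebraic, so that they vanish in the Brauer group. The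
proof applies the Chevalley-Warning theorem to a Pfaffian of degree `g` in `g + 1` variables.
-/

set_option autoImplicit false

namespace Pool.Agent.Results.MP_43d240_ag.RealMultiplication

open Pool.Agent.Helper18.Br Pool.Agent.H552R3.SymBr Pool.Agent.H552R3.SymPred

universe u

/-- The relations `∏_{i,j} {e_i, f_j} ^ l(a r_i r_j) = 1` for all `a ∈ R`. -/
def RMRel {K : Type u} [Field K] (p : ℕ) (ζ : K) {R : Type} [CommRing R] [Algebra (ZMod p) R]
    {g : ℕ} (r : Module.Basis (Fin g) (ZMod p) R) (l : R →ₗ[ZMod p] ZMod p)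
    (e f : Fin g → Kˣ) : Prop :=
  ∃ γ : Fin g → Fin g → BrauerGroup.{u, u} K, (∀ i j, IsSym p ζ (e i) (f j) (γ i j)) ∧
    ∀ a : R, ∏ i, ∏ j, γ i j ^ (l (a * r i * r j)).val = 1

/-- **The unramified period-index conjecture for abelian varieties with real multiplication, for
classes of prime period.** Let `p` be a prime, `K` an extension of an algebraically closed field `k`
with a primitive `p`-th root of unity `ζ`, `R` a reduced `𝔽_p`-algebra of finite dimension `g > 0`
with basis `r` and a functional `l` such that the form `l(x y)` is nondegenerate, and `e_i, f_i`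
(`i < g`) elements of `Kˣ` with `∏_{i,j} {e_i, f_j} ^ l(a r_i r_j) = 1` for all `a ∈ R`.
(1) Every class in the group generated by all symbols of degree `p` with entries in the group
generated by the `e_i` and `f_i` has index dividing `p ^ (g - 1)`.
(2) If `H ≤ Kˣ` and `V ≤ Br(K)` are subgroups such that all symbols of `H` are in `V` and all
classes of `V` have index dividing `N`, then every class of the group generated by `V` and all
symbols with entries in the group generated by `H`, `e_i`, `f_i` has index dividing `p ^ g * N`. -/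
theorem result {k K : Type u} [Field k] [IsAlgClosed k] [Field K] [Algebra k K] (p : ℕ)
    (hp : p.Prime) (ζ : K) (hζ : IsPrimitiveRoot ζ p) (R : Type) [CommRing R] [Algebra (ZMod p) R]
    [IsReduced R] (g : ℕ) (hg : 0 < g) (r : Module.Basis (Fin g) (ZMod p) R)
    (l : R →ₗ[ZMod p] ZMod p) (hl : ∀ x : R, (∀ y : R, l (x * y) = 0) → x = 0) (e f : Fin g → Kˣ)
    (hrel : RMRel p ζ r l e f) :
    (∀ α ∈ Subgroup.closure {γ | ∃ x ∈ Subgroup.closure (Set.range e ∪ Set.range f),
        ∃ y ∈ Subgroup.closure (Set.range e ∪ Set.range f), IsSym p ζ x y γ},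
      IndDvd α (p ^ (g - 1))) ∧
    (∀ (H : Subgroup Kˣ) (V : Subgroup (BrauerGroup.{u, u} K)),
      (∀ a ∈ H, ∀ b ∈ H, ∀ γ, IsSym p ζ a b γ → γ ∈ V) → ∀ N : ℕ, 0 < N →
      (∀ β ∈ V, IndDvd β N) →
      ∀ α ∈ V ⊔ Subgroup.closure {γ | ∃ x ∈ H ⊔ Subgroup.closure (Set.range e ∪ Set.range f),
        ∃ y ∈ H ⊔ Subgroup.closure (Set.range e ∪ Set.range f), IsSym p ζ x y γ},
      IndDvd α (p ^ g * N)) := by
  have : Fact p.Prime := ⟨hp⟩
  have hn := hp.pos
  have h1 : ∃ c : K, c ^ p = -1 := by
    obtain ⟨c, hc⟩ := IsAlgClosed.exists_pow_nat_eq (-1 : k) hn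
    exact ⟨algebraMap k K c, by rw [← map_pow, hc, map_neg, map_one]⟩
  have hS : ∀ G : Subgroup Kˣ, {γ | ∃ x ∈ G, ∃ y ∈ G, IsSym p ζ x y γ} = symSet hn hζ G := by
    intro G
    ext γ
    constructor
    · rintro ⟨x, hx, y, hy, h⟩
      exact ⟨x, hx, y, hy, (isSym_iff hn hζ x y γ).1 h⟩
    · rintro ⟨x, hx, y, hy, h⟩
      exact ⟨x, hx, y, hy, (isSym_iff hn hζ x y γ).2 h⟩
  obtain ⟨γ, hγ, hrel⟩ := hrel
  have hγ' : ∀ i j, γ i j = symCl hn hζ (e i) (f j) :=
    fun i j => (isSym_iff hn hζ _ _ _).1 (hγ i j)
  simp only [hγ'] at hrel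
  obtain ⟨hA, hB⟩ := Pool.Agent.W422.PI.realBr p hζ h1 R g hg r l hl e f hrel
  constructor
  · rw [hS]
    exact hA
  · intro H V hHV N hN hV
    rw [hS]
    exact hB H V (fun a ha b hb => hHV a ha b hb _ ((isSym_iff hn hζ a b _).2 rfl)) N hN hV

end Pool.Agent.Results.MP_43d240_ag.RealMultiplication
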